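import Mathlib
import Pool.Agent.H439Z.ShFinal

set_option autoImplicit false

open scoped ComplexOrder
open Pool.Agent.H439Z.Sh

universe u

/-- Every complete Pick pair of kernels in which `l` vanishes on the diagonal only where `k` does
has a Shimorin certificate. -/
theorem Pool.Agent.Results.MP_e3a8c8_an.ACertificate.result :
    ∀ (X : Type u) (k l : Matrix X X ℂ), k.PosSemidef → l.PosSemidef →
      (∀ x, l x x = 0 → k x x = 0) → CPPairInj k l → HasCertificate k l :=
  fun _ _ _ hk hl hkl h => certificate_of_cp hk hl hkl h
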