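import Mathlib
import Pool.Agent.H439Z.ShCex

set_option autoImplicit false

open scoped ComplexOrder
open Pool.Agent.H439Z.Sh

/-- A complete Pick pair on three points without a Shimorin certificate. -/
theorem Pool.Agent.Results.MP_e3a8c8_an.BDegenerate.result :
    ∃ k l : Matrix (Fin 3) (Fin 3) ℂ, k.PosSemidef ∧ l.PosSemidef ∧ CPPair k l ∧
      ¬ HasCertificate k l :=
  cex
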